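import Pool.Agent.Helper51.Hart.Defs2

set_option autoImplicit false

noncomputable section

open Set Metric Complex MeasureTheory

namespace Pool.Helper51.Hart

variable {ρ : ℂ × ℂ → ℝ} {σ : ℝ × ℂ → ℝ} {m : ℕ} {A0 A1 A2 : ℝ → ℂ → ℂ}

/-- propagation of vertical segments along a segment of the closed slice -/
private theorem helper14_prop (hσ : Slice σ) {w₀ : ℂ} {rs d : ℝ} (hrs : 0 ≤ rs)
    (hneg : ∀ w, ‖w - w₀‖ < d → σ (rs, w) ≤ 0) {r r' : ℝ} {w w' : ℂ}
    (hseg : SegIn σ w₀ d r w r' w') (hg : ∀ s ∈ uIcc r rs, σ (s, w) ≤ 0) :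
    ∀ s ∈ uIcc r' rs, σ (s, w') ≤ 0 := by
  have hc : Continuous fun t : ℝ => r + t * (r' - r) := by fun_prop
  have hcw : Continuous fun t : ℝ => w + (t : ℂ) * (w' - w) := by fun_prop
  have key := hσ.kont1 (fun t => min rs (r + t * (r' - r))) (fun t => max rs (r + t * (r' - r)))
    (fun t => w + (t : ℂ) * (w' - w)) (continuous_const.min hc).continuousOn
    (continuous_const.max hc).continuousOn hcw.continuousOn ?_ ?_ ?_ 1 (by simp)
  · intro s hs
    have h1 := key s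
    simp only [one_mul, ofReal_one, add_sub_cancel] at h1
    apply h1
    rw [uIcc_comm] at hs
    exact hs
  · intro t ht
    exact ⟨le_min hrs (hseg t ht).1, min_le_max⟩
  · intro t ht
    obtain ⟨h0, h1, h2⟩ := hseg t ht
    refine ⟨?_, ?_⟩
    · rcases min_choice rs (r + t * (r' - r)) with h | h
      · simp only [h]
        exact hneg _ h2
      · simp only [h]
        exact h1
    · rcases max_choice rs (r + t * (r' - r)) with h | h
      · simp only [h]
        exact hneg _ h2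
      · simp only [h]
        exact h1
  · intro s hs
    simp only [zero_mul, add_zero, ofReal_zero] at hs ⊢
    apply hg
    rw [uIcc_comm]
    exact hs

/-- HT-06 -/
theorem box_typeI (hσ : Slice σ) (hlc : LocalConn σ) {w₀ : ℂ} {α β : ℝ}
    (hm : MaxInt σ w₀ α β) {rs : ℝ} (hrs : rs ∈ Icc α β) (hneg : σ (rs, w₀) < 0) :
    ∃ a b δ, a < α ∧ β < b ∧ GoodBox σ a b w₀ δ := by
  obtain ⟨hα0, hαβ, hle, hb4, ha5⟩ := hm
  have hσc : Continuous σ := hσ.smooth.continuous
  have hrs0 : 0 ≤ rs := hα0.trans hrs.1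
  -- neighbourhoods from continuity
  have hnb : ∀ r : ℝ, ∀ U : Set ℝ, IsOpen U → σ (r, w₀) ∈ U →
      ∃ d > 0, ∀ w, ‖w - w₀‖ < d → σ (r, w) ∈ U := by
    intro r U hU hmem
    have hc : Continuous fun w : ℂ => σ (r, w) := hσc.comp (by fun_prop)
    have : (fun w : ℂ => σ (r, w)) ⁻¹' U ∈ nhds w₀ := (hU.preimage hc).mem_nhds hmem
    obtain ⟨d, hd, hsub⟩ := Metric.mem_nhds_iff.1 this
    exact ⟨d, hd, fun w hw => hsub (by rw [mem_ball, dist_eq_norm]; exact hw)⟩
  obtain ⟨d', hd', hneg'⟩ := hnb rs (Iio 0) isOpen_Iio hneg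
  set d1 : ℝ := d' / 2 with hd1
  have hd1pos : 0 < d1 := by positivity
  have hneg2 : ∀ w, ‖w - w₀‖ < 2 * d1 → σ (rs, w) < 0 := by
    intro w hw
    exact hneg' w (by rw [hd1] at hw; linarith)
  have hneg1 : ∀ w, ‖w - w₀‖ < d1 → σ (rs, w) ≤ 0 := fun w hw =>
    (hneg2 w (by linarith)).le
  -- local goodness
  have hloc : ∀ c ∈ Icc α β, ∃ δ > 0, ∀ (r' : ℝ) (w' : ℂ), 0 ≤ r' → σ (r', w') ≤ 0 →
      |r' - c| < δ → ‖w' - w₀‖ < δ → ∀ s ∈ uIcc r' rs, σ (s, w') ≤ 0 := by
    intro c hc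
    obtain ⟨δ, hδ, hcon⟩ := hlc c w₀ (hα0.trans hc.1) (hle c hc) d1 hd1pos
    refine ⟨δ, hδ, fun r' w' h0 h1 h2 h3 => ?_⟩
    obtain ⟨r1, w1, r2, w2, s1, s2, s3⟩ := hcon r' w' h0 h1 h2 h3
    have g0 : ∀ s ∈ uIcc c rs, σ (s, w₀) ≤ 0 := by
      intro s hs
      exact hle s (uIcc_subset_Icc hc hrs hs)
    exact helper14_prop hσ hrs0 hneg1 s3 (helper14_prop hσ hrs0 hneg1 s2
      (helper14_prop hσ hrs0 hneg1 s1 g0))
  choose! D hD hDg using hloc
  -- compactness
  set O : Set (ℝ × ℂ) := ⋃ c ∈ Icc α β, ball (c, w₀) (D c) with hO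
  have hOo : IsOpen O := isOpen_biUnion fun c _ => isOpen_ball
  have hKc : IsCompact (Icc α β ×ˢ ({w₀} : Set ℂ)) := isCompact_Icc.prod isCompact_singleton
  have hKO : Icc α β ×ˢ ({w₀} : Set ℂ) ⊆ O := by
    rintro ⟨c, w⟩ ⟨hc, hw⟩
    rw [mem_singleton_iff] at hw
    simp only at hw hc
    subst hw
    exact mem_biUnion hc (mem_ball_self (hD c hc))
  obtain ⟨η, hη, hthick⟩ := hKc.exists_thickening_subset_open hOo hKO
  have hgood : ∀ (r : ℝ) (w : ℂ), 0 ≤ r → σ (r, w) ≤ 0 → α - η < r → r < β + η →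
      ‖w - w₀‖ < η → ∀ s ∈ uIcc r rs, σ (s, w) ≤ 0 := by
    intro r w h0 h1 h2 h3 h4
    have hmem : (r, w) ∈ thickening η (Icc α β ×ˢ ({w₀} : Set ℂ)) := by
      rw [mem_thickening_iff]
      refine ⟨(max α (min β r), w₀), ⟨⟨le_max_left _ _, max_le hαβ (min_le_left _ _)⟩, rfl⟩, ?_⟩
      rw [Prod.dist_eq]
      refine max_lt ?_ ?_
      · rw [Real.dist_eq, abs_lt]
        simp only
        rcases le_total r α with h | h
        · rw [min_eq_right (h.trans hαβ), max_eq_left h]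
          constructor <;> linarith
        · rcases le_total r β with h' | h'
          · rw [min_eq_right h', max_eq_right h]
            constructor <;> linarith
          · rw [min_eq_left h', max_eq_right hαβ]
            constructor <;> linarith
      · rw [dist_eq_norm]
        exact h4
    obtain ⟨c, hc, hc2⟩ := mem_iUnion₂.1 (hthick hmem)
    rw [mem_ball, Prod.dist_eq, max_lt_iff, Real.dist_eq, dist_eq_norm] at hc2
    exact hDg c hc r w h0 h1 hc2.1 hc2.2
  -- ends of the box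
  obtain ⟨b, hb1, hb2, hb3⟩ := hb4 η hη
  have ha : ∃ a, a < α ∧ α - η < a ∧ (a < 0 ∨ 0 < σ (a, w₀)) := by
    rcases ha5 with h | h
    · refine ⟨α - η / 2, by linarith, by linarith, Or.inl (by rw [h]; linarith)⟩
    · obtain ⟨s, -, hs2, hs3, hs4⟩ := h η hη
      exact ⟨s, hs3, hs2, Or.inr hs4⟩
  obtain ⟨a, ha1, ha2, ha3⟩ := ha
  obtain ⟨db, hdb, hdb2⟩ := hnb b (Ioi 0) isOpen_Ioi hb3
  have hda : ∃ da > 0, a < 0 ∨ ∀ w, ‖w - w₀‖ < da → 0 < σ (a, w) := by
    rcases ha3 with h | h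
    · exact ⟨1, one_pos, Or.inl h⟩
    · obtain ⟨da, h1, h2⟩ := hnb a (Ioi 0) isOpen_Ioi h
      exact ⟨da, h1, Or.inr h2⟩
  obtain ⟨da, hda, hda2⟩ := hda
  set δ : ℝ := min (min da db) (min η d1) / 2 with hδ
  have hm1 : min (min da db) (min η d1) ≤ da := (min_le_left _ _).trans (min_le_left _ _)
  have hm2 : min (min da db) (min η d1) ≤ db := (min_le_left _ _).trans (min_le_right _ _)
  have hm3 : min (min da db) (min η d1) ≤ η := (min_le_right _ _).trans (min_le_left _ _)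
  have hm4 : min (min da db) (min η d1) ≤ d1 := (min_le_right _ _).trans (min_le_right _ _)
  have hmpos : 0 < min (min da db) (min η d1) := by
    refine lt_min (lt_min hda hdb) (lt_min hη hd1pos)
  have hδpos : 0 < δ := by rw [hδ]; positivity
  have hgoodbox : ∀ r w, InBox σ a b w₀ δ r w → ∀ s ∈ uIcc r rs, σ (s, w) ≤ 0 := by
    intro r w h
    obtain ⟨h0, h1, h2, h3, h4⟩ := h
    exact hgood r w h0 h1 (by linarith) (by linarith) (by linarith)
  refine ⟨a, b, δ, ha1, hb1, ⟨hδpos, ?_, ?_, ?_, ?_⟩⟩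
  · intro r w h0 h1 h2
    refine ⟨?_, ?_⟩
    · rintro rfl
      rcases hda2 with h | h
      · linarith
      · exact absurd (h w (by linarith)) (not_lt.2 h1)
    · rintro rfl
      exact absurd (hdb2 w (by linarith)) (not_lt.2 h1)
  · intro r r' w h h' s hs
    rcases uIcc_subset_uIcc_union_uIcc (b := rs) hs with h1 | h1
    · exact hgoodbox r w h s h1
    · rw [uIcc_comm] at h1
      exact hgoodbox r' w h' s h1
  · refine ⟨1, zero_le_one, fun r w r' w' h h' => ⟨rs, w', rs, ⟨hrs0, hrs0, ?_, ?_, ?_, ?_, ?_⟩,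
      by rw [one_mul], by simp⟩⟩
    · exact hgoodbox r w h
    · intro t ht
      refine hneg1 _ ?_
      have e : w + (t : ℂ) * (w' - w) - w₀ = (1 - (t : ℂ)) * (w - w₀) + t * (w' - w₀) := by ring
      rw [e]
      have n1 : ‖(1 - (t : ℂ)) * (w - w₀)‖ ≤ (1 - t) * δ := by
        rw [norm_mul, ← ofReal_one, ← ofReal_sub, norm_real,
          Real.norm_of_nonneg (by linarith [ht.2])]
        exact mul_le_mul_of_nonneg_left h.2.2.2.2.le (by linarith [ht.2])
      have n2 : ‖(t : ℂ) * (w' - w₀)‖ ≤ t * δ := by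
        rw [norm_mul, norm_real, Real.norm_of_nonneg ht.1]
        exact mul_le_mul_of_nonneg_left h'.2.2.2.2.le ht.1
      calc _ ≤ (1 - t) * δ + t * δ := (norm_add_le _ _).trans (add_le_add n1 n2)
        _ = δ := by ring
        _ < d1 := by linarith
    · intro s hs
      rw [uIcc_self, mem_singleton_iff] at hs
      subst hs
      exact hneg1 _ (by linarith [h'.2.2.2.2])
    · intro t _
      rw [sub_self, mul_zero, add_zero]
      exact hneg1 _ (by linarith [h'.2.2.2.2])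
    · intro s hs
      rw [uIcc_comm] at hs
      exact hgoodbox r' w' h' s hs
  · refine ⟨0, 1, d1, by simp, one_pos, le_rfl, hd1pos, fun ε hε hε' r w w' h hw' => ?_⟩
    refine ⟨rs, hrs0, ha1.trans_le hrs.1, hrs.2.trans_lt hb1, ?_⟩
    rw [mul_zero, add_zero]
    refine hneg2 _ ?_
    have e : w' - w₀ = (w' - w) + (w - w₀) := by ring
    rw [e]
    refine (norm_add_le _ _).trans_lt ?_
    have := h.2.2.2.2
    linarith

end Pool.Helper51.Hart
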