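import Pool.Agent.Helper51.Hart.Defs2

set_option autoImplicit false

noncomputable section

open Set Metric Complex MeasureTheory

namespace Pool.Helper51.Hart

variable {ρ : ℂ × ℂ → ℝ} {σ : ℝ × ℂ → ℝ} {m : ℕ} {A0 A1 A2 : ℝ → ℂ → ℂ}

private theorem helper14_jets {a0 a1 a2 b0 b1 b2 c0 c1 c2 h1 h2 : ℂ} {C D : ℝ} (hC : 0 ≤ C)
    (hD : 0 ≤ D) (n1 : ‖h1‖ ≤ D) (n2 : ‖h2‖ ≤ D)
    (e0 : ‖b0 - (a0 + a1 * h1 + a2 * h1 ^ 2 / 2)‖ ≤ C * D ^ 3)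
    (e1 : ‖b1 - (a1 + a2 * h1)‖ ≤ C * D ^ 2) (e2 : ‖b2 - a2‖ ≤ C * D)
    (f0 : ‖c0 - (b0 + b1 * h2 + b2 * h2 ^ 2 / 2)‖ ≤ C * D ^ 3)
    (f1 : ‖c1 - (b1 + b2 * h2)‖ ≤ C * D ^ 2) (f2 : ‖c2 - b2‖ ≤ C * D) :
    ‖c0 - (a0 + a1 * (h1 + h2) + a2 * (h1 + h2) ^ 2 / 2)‖ ≤ 4 * C * D ^ 3 ∧
      ‖c1 - (a1 + a2 * (h1 + h2))‖ ≤ 4 * C * D ^ 2 ∧ ‖c2 - a2‖ ≤ 4 * C * D := by
  have hCD : 0 ≤ C * D := by positivity
  have hCD2 : 0 ≤ C * D ^ 2 := by positivity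
  have hCD3 : 0 ≤ C * D ^ 3 := by positivity
  refine ⟨?_, ?_, ?_⟩
  · have e : c0 - (a0 + a1 * (h1 + h2) + a2 * (h1 + h2) ^ 2 / 2) =
        (c0 - (b0 + b1 * h2 + b2 * h2 ^ 2 / 2)) + (b0 - (a0 + a1 * h1 + a2 * h1 ^ 2 / 2)) +
          (b1 - (a1 + a2 * h1)) * h2 + (b2 - a2) * (h2 ^ 2 / 2) := by ring
    rw [e]
    have g1 : ‖(b1 - (a1 + a2 * h1)) * h2‖ ≤ C * D ^ 2 * D := by
      rw [norm_mul]
      exact mul_le_mul e1 n2 (norm_nonneg _) hCD2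
    have g2 : ‖(b2 - a2) * (h2 ^ 2 / 2)‖ ≤ C * D * D ^ 2 := by
      rw [norm_mul]
      refine mul_le_mul e2 ?_ (norm_nonneg _) hCD
      rw [norm_div, norm_pow]
      have h3 : ‖h2‖ ^ 2 ≤ D ^ 2 := pow_le_pow_left₀ (norm_nonneg _) n2 2
      have h4 : ‖(2 : ℂ)‖ = 2 := by simp
      rw [h4]
      have h5 : 0 ≤ ‖h2‖ ^ 2 := by positivity
      linarith
    calc _ ≤ ‖c0 - (b0 + b1 * h2 + b2 * h2 ^ 2 / 2)‖ +
          ‖b0 - (a0 + a1 * h1 + a2 * h1 ^ 2 / 2)‖ + ‖(b1 - (a1 + a2 * h1)) * h2‖ +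
            ‖(b2 - a2) * (h2 ^ 2 / 2)‖ := norm_add₄_le
      _ ≤ C * D ^ 3 + C * D ^ 3 + C * D ^ 2 * D + C * D * D ^ 2 := by linarith
      _ = 4 * C * D ^ 3 := by ring
  · have e : c1 - (a1 + a2 * (h1 + h2)) =
        (c1 - (b1 + b2 * h2)) + (b1 - (a1 + a2 * h1)) + (b2 - a2) * h2 := by ring
    rw [e]
    have g1 : ‖(b2 - a2) * h2‖ ≤ C * D * D := by
      rw [norm_mul]
      exact mul_le_mul e2 n2 (norm_nonneg _) hCD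
    calc _ ≤ ‖c1 - (b1 + b2 * h2)‖ + ‖b1 - (a1 + a2 * h1)‖ + ‖(b2 - a2) * h2‖ := norm_add₃_le
      _ ≤ C * D ^ 2 + C * D ^ 2 + C * D * D := by linarith
      _ ≤ 4 * C * D ^ 2 := by nlinarith
  · have e : c2 - a2 = (c2 - b2) + (b2 - a2) := by ring
    rw [e]
    exact (norm_add_le _ _).trans (by linarith)

/-- HT-14 -/
theorem box_tay (hA : JetSys σ A0 A1 A2) {a b δ : ℝ} {w₀ : ℂ} (hb : GoodBox σ a b w₀ δ) :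
    ∃ C : ℝ, BoxTay σ A0 A1 A2 a b w₀ δ C := by
  obtain ⟨Ct, hCt, htay⟩ := hA.tay
  obtain ⟨Cb, hCb, hchain⟩ := hb.chain
  refine ⟨4 * Ct * (1 + Cb) ^ 3, by positivity, ?_⟩
  intro r w r' w' h h'
  obtain ⟨r1, w1, r2, ⟨hr1, hr2, v1, m1, v2, m2, v3⟩, n1, n2⟩ := hchain r w r' w' h h'
  obtain ⟨p0, p1, p2⟩ := hA.fib r r1 w h.1 hr1 v1
  obtain ⟨q0, q1, q2⟩ := hA.fib r1 r2 w1 hr1 hr2 v2
  obtain ⟨s0, s1, s2⟩ := hA.fib r2 r' w' hr2 h'.1 v3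
  obtain ⟨t0, t1, t2⟩ := htay r1 w w1 hr1 m1
  obtain ⟨u0, u1, u2⟩ := htay r2 w1 w' hr2 m2
  have hs : 0 ≤ ‖w' - w‖ := norm_nonneg _
  set s := ‖w' - w‖ with hsdef
  have hD : 0 ≤ Cb * s := by positivity
  have k1 : ∀ n : ℕ, ‖w1 - w‖ ^ n ≤ (Cb * s) ^ n := fun n =>
    pow_le_pow_left₀ (norm_nonneg _) n1 n
  have k2 : ∀ n : ℕ, ‖w' - w1‖ ^ n ≤ (Cb * s) ^ n := fun n =>
    pow_le_pow_left₀ (norm_nonneg _) n2 n
  have key := helper14_jets (a0 := A0 r w) (a1 := A1 r w) (a2 := A2 r w) (b0 := A0 r1 w1)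
    (b1 := A1 r1 w1) (b2 := A2 r1 w1) (c0 := A0 r' w') (c1 := A1 r' w') (c2 := A2 r' w')
    (h1 := w1 - w) (h2 := w' - w1) hCt hD n1 n2
    (by rw [p0, p1, p2]; exact t0.trans (mul_le_mul_of_nonneg_left (k1 3) hCt))
    (by rw [p1, p2]; exact t1.trans (mul_le_mul_of_nonneg_left (k1 2) hCt))
    (by rw [p2]; exact t2.trans (mul_le_mul_of_nonneg_left n1 hCt))
    (by rw [q0, q1, q2, ← s0]; exact u0.trans (mul_le_mul_of_nonneg_left (k2 3) hCt))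
    (by rw [q1, q2, ← s1]; exact u1.trans (mul_le_mul_of_nonneg_left (k2 2) hCt))
    (by rw [q2, ← s2]; exact u2.trans (mul_le_mul_of_nonneg_left n2 hCt))
  have e : w1 - w + (w' - w1) = w' - w := by ring
  rw [e] at key
  obtain ⟨z0, z1, z2⟩ := key
  have hC1 : 1 ≤ 1 + Cb := by linarith
  have c3 : Cb ^ 3 ≤ (1 + Cb) ^ 3 := pow_le_pow_left₀ hCb (by linarith) 3
  have c2 : Cb ^ 2 ≤ (1 + Cb) ^ 3 :=
    (pow_le_pow_left₀ hCb (by linarith) 2).trans (pow_le_pow_right₀ hC1 (by norm_num))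
  have c1 : Cb ≤ (1 + Cb) ^ 3 := by
    have := pow_le_pow_right₀ hC1 (show 1 ≤ 3 by norm_num)
    rw [pow_one] at this
    linarith
  refine ⟨?_, ?_, ?_⟩
  · refine z0.trans ?_
    rw [mul_pow]
    have : 4 * Ct * Cb ^ 3 * s ^ 3 ≤ 4 * Ct * (1 + Cb) ^ 3 * s ^ 3 :=
      mul_le_mul_of_nonneg_right (mul_le_mul_of_nonneg_left c3 (by positivity)) (by positivity)
    linarith
  · refine z1.trans ?_
    rw [mul_pow]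
    have : 4 * Ct * Cb ^ 2 * s ^ 2 ≤ 4 * Ct * (1 + Cb) ^ 3 * s ^ 2 :=
      mul_le_mul_of_nonneg_right (mul_le_mul_of_nonneg_left c2 (by positivity)) (by positivity)
    linarith
  · refine z2.trans ?_
    have : 4 * Ct * Cb * s ≤ 4 * Ct * (1 + Cb) ^ 3 * s :=
      mul_le_mul_of_nonneg_right (mul_le_mul_of_nonneg_left c1 (by positivity)) (by positivity)
    linarith

end Pool.Helper51.Hart
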