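import Pool.Agent.Helper51.Hart.Defs2

set_option autoImplicit false

noncomputable section

open Set Metric Complex MeasureTheory

namespace Pool.Helper51.Hart

variable {ρ : ℂ × ℂ → ℝ} {σ : ℝ × ℂ → ℝ} {m : ℕ} {A0 A1 A2 : ℝ → ℂ → ℂ}

/-- The Cauchy Riemann equations extend from the open set to its closure. -/
private theorem helper14_closure (hf : HFacts ρ) {g : ℂ × ℂ → ℂ}
    (hg : ContDiff ℝ ((⊤ : ℕ∞) : WithTop ℕ∞) g)
    (h : ∀ p, ρ p < 0 → ∀ v : ℂ × ℂ, fderiv ℝ g p (I • v) = I * fderiv ℝ g p v) : CR ρ g := by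
  refine ⟨hg, fun p hp v => ?_⟩
  have hc : Continuous (fderiv ℝ g) := hg.continuous_fderiv (by simp)
  have hcl : IsClosed {q : ℂ × ℂ | fderiv ℝ g q (I • v) = I * fderiv ℝ g q v} :=
    isClosed_eq (hc.clm_apply continuous_const)
      (continuous_const.mul (hc.clm_apply continuous_const))
  have hsub : closure {q : ℂ × ℂ | ρ q < 0} ⊆
      {q : ℂ × ℂ | fderiv ℝ g q (I • v) = I * fderiv ℝ g q v} :=
    closure_minimal (fun q hq => h q hq v) hcl
  rw [hf.closure_eq] at hsub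
  exact hsub hp

/-- HT-21 -/
theorem CR_of_hol (hf : HFacts ρ) (hρ : Continuous ρ) {g : ℂ × ℂ → ℂ}
    (hg : ContDiff ℝ ((⊤ : ℕ∞) : WithTop ℕ∞) g)
    (hh : DifferentiableOn ℂ g {p | ρ p < 0}) : CR ρ g := by
  refine helper14_closure hf hg fun p hp v => ?_
  have hopen : IsOpen {p : ℂ × ℂ | ρ p < 0} := isOpen_lt hρ continuous_const
  have hd : DifferentiableAt ℂ g p := (hh p hp).differentiableAt (hopen.mem_nhds hp)
  have h1 : HasFDerivAt g ((fderiv ℂ g p).restrictScalars ℝ) p :=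
    hd.hasFDerivAt.restrictScalars ℝ
  rw [h1.fderiv]
  simp only [ContinuousLinearMap.coe_restrictScalars', map_smul, smul_eq_mul]

/-- directional derivatives of a CR function are CR -/
private theorem helper14_dir (hf : HFacts ρ) (hρ : Continuous ρ) {F : ℂ × ℂ → ℂ} (hF : CR ρ F)
    (e : ℂ × ℂ) : CR ρ (fun p => fderiv ℝ F p e) := by
  obtain ⟨hFs, hFc⟩ := hF
  have hopen : IsOpen {p : ℂ × ℂ | ρ p < 0} := isOpen_lt hρ continuous_const
  have hF1 : ContDiff ℝ ((⊤ : ℕ∞) : WithTop ℕ∞) (fderiv ℝ F) :=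
    hFs.fderiv_right (by simp)
  have hsm : ContDiff ℝ ((⊤ : ℕ∞) : WithTop ℕ∞) (fun p => fderiv ℝ F p e) :=
    hF1.clm_apply contDiff_const
  refine helper14_closure hf hsm fun p hp v => ?_
  have hd : DifferentiableAt ℝ (fderiv ℝ F) p := (hF1.differentiable (by simp)) p
  have hder : ∀ w : ℂ × ℂ, HasFDerivAt (fun q => fderiv ℝ F q w)
      ((fderiv ℝ (fderiv ℝ F) p).flip w) p := by
    intro w
    have h1 := hd.hasFDerivAt.clm_apply (hasFDerivAt_const w p)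
    refine h1.congr_fderiv ?_
    ext u <;> simp
  have hsymm : ∀ u w : ℂ × ℂ, fderiv ℝ (fderiv ℝ F) p u w = fderiv ℝ (fderiv ℝ F) p w u := by
    intro u w
    have h2 : ContDiffAt ℝ 2 F p := (contDiff_infty.1 hFs 2).contDiffAt
    exact (h2.isSymmSndFDerivAt (by simp)).eq u w
  have hlin : ∀ u : ℂ × ℂ, fderiv ℝ (fderiv ℝ F) p u (I • v) =
      I * fderiv ℝ (fderiv ℝ F) p u v := by
    intro u
    have h1 := hder (I • v)
    have h2 := (hder v).const_mul I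
    have h3 : (fun q => fderiv ℝ F q (I • v)) =ᶠ[nhds p] fun q => I * fderiv ℝ F q v := by
      filter_upwards [hopen.mem_nhds hp] with q hq
      exact hFc q (le_of_lt hq) v
    have h4 := (h1.congr_of_eventuallyEq h3.symm).unique h2
    have h5 := congrArg (fun L : (ℂ × ℂ) →L[ℝ] ℂ => L u) h4
    simpa using h5
  rw [(hder e).fderiv]
  simp only [ContinuousLinearMap.flip_apply]
  rw [hsymm (I • v) e, hlin e, hsymm e v]

theorem CR.dw (hf : HFacts ρ) (hρ : Continuous ρ) {F : ℂ × ℂ → ℂ} (hF : CR ρ F) :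
    CR ρ (Dw F) := helper14_dir hf hρ hF (0, 1)

theorem CR.dz (hf : HFacts ρ) (hρ : Continuous ρ) {F : ℂ × ℂ → ℂ} (hF : CR ρ F) :
    CR ρ (Dz F) := helper14_dir hf hρ hF (1, 0)

theorem CR.mulz {F : ℂ × ℂ → ℂ} (hF : CR ρ F) : CR ρ (fun p => p.1 * F p) := by
  obtain ⟨hFs, hFc⟩ := hF
  refine ⟨contDiff_fst.mul hFs, fun p hp v => ?_⟩
  have hd : HasFDerivAt F (fderiv ℝ F p) p := ((hFs.differentiable (by simp)) p).hasFDerivAt
  have h1 : HasFDerivAt (fun q : ℂ × ℂ => q.1) (ContinuousLinearMap.fst ℝ ℂ ℂ) p :=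
    hasFDerivAt_fst
  have h2 : HasFDerivAt (fun q : ℂ × ℂ => q.1 * F q)
      (p.1 • fderiv ℝ F p + F p • ContinuousLinearMap.fst ℝ ℂ ℂ) p := h1.mul hd
  rw [h2.fderiv]
  simp only [_root_.add_apply, _root_.smul_apply, smul_eq_mul,
    ContinuousLinearMap.coe_fst', Prod.smul_fst]
  rw [hFc p hp v]
  ring

theorem CR.smul {F : ℂ × ℂ → ℂ} (hF : CR ρ F) (c : ℂ) : CR ρ (fun p => c * F p) := by
  obtain ⟨hFs, hFc⟩ := hF
  refine ⟨contDiff_const.mul hFs, fun p hp v => ?_⟩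
  have hd : HasFDerivAt F (fderiv ℝ F p) p := ((hFs.differentiable (by simp)) p).hasFDerivAt
  have h2 := hd.const_mul c
  rw [h2.fderiv]
  simp only [_root_.smul_apply, smul_eq_mul]
  rw [hFc p hp v]
  ring

end Pool.Helper51.Hart
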